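import Pool.Agent.Q176.WL.A2

/-! Comparison in a shrinking disc. -/

namespace Pool.Agent.Q176.FI

open Set Filter Topology Pool.Agent.Q176.WL

/-- The open Euclidean disc with centre `c` and radius `δ`. -/
def Disc (c : ℝ × ℝ) (δ : ℝ) : Set (ℝ × ℝ) := {z | dsq z c < δ ^ 2}

/-- The barrier. -/
noncomputable def Ph (κ A X0 δ : ℝ) (L : ℝ → ℝ) (t R : ℝ) : ℝ :=
  Real.exp (A * t - κ * (X0 - 2 * δ * L t - R))

lemma dsq_cont (c : ℝ × ℝ) : Continuous (fun z : ℝ × ℝ => dsq z c) := by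
  unfold dsq; fun_prop

lemma isOpen_Disc (c : ℝ × ℝ) (δ : ℝ) : IsOpen (Disc c δ) :=
  isOpen_lt (dsq_cont c) continuous_const

/-- The shrinking disc up to time `T'`. -/
def Bx (c : ℝ × ℝ) (X0 δ : ℝ) (L : ℝ → ℝ) (T' : ℝ) : Set E :=
  {z | z.1 ∈ Icc 0 T' ∧ dsq z.2 c ≤ X0 - 2 * δ * L z.1}

lemma compactBx {c : ℝ × ℝ} {X0 δ : ℝ} {L : ℝ → ℝ} {T' : ℝ} (hδ : 0 < δ) (hX0 : X0 < δ ^ 2)
    (hLc : Continuous L) (hL : ∀ t ∈ Icc 0 T', 0 ≤ L t) : IsCompact (Bx c X0 δ L T') := by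
  have hcl : IsClosed (Bx c X0 δ L T') := by
    refine IsClosed.inter (isClosed_Icc.preimage continuous_fst) ?_
    exact isClosed_le ((dsq_cont c).comp continuous_snd)
      (by fun_prop : Continuous fun z : E => X0 - 2 * δ * L z.1)
  refine IsCompact.of_isClosed_subset
    ((isCompact_Icc (a := (0:ℝ)) (b := T')).prod
      ((isCompact_Icc (a := c.1 - δ) (b := c.1 + δ)).prod
        (isCompact_Icc (a := c.2 - δ) (b := c.2 + δ)))) hcl ?_
  rintro ⟨t, x, y⟩ ⟨h1, h2⟩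
  simp only at h1 h2
  have h3 : dsq (x, y) c ≤ δ ^ 2 := by
    have := mul_nonneg (mul_nonneg (by norm_num : (0:ℝ) ≤ 2) hδ.le) (hL t h1)
    linarith
  unfold dsq at h3
  simp only at h3
  have hx : |x - c.1| ≤ δ := abs_le_of_sq_le_sq (by nlinarith [sq_nonneg (y - c.2)]) hδ.le
  have hy : |y - c.2| ≤ δ := abs_le_of_sq_le_sq (by nlinarith [sq_nonneg (x - c.1)]) hδ.le
  rw [abs_le] at hx hy
  exact ⟨h1, ⟨by simp only; linarith, by simp only; linarith⟩, ⟨by simp only; linarith, by simp only; linarith⟩⟩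

lemma Ph_t {κ A X0 δ t R l : ℝ} {L : ℝ → ℝ} (hL : HasDerivAt L l t) :
    HasDerivAt (fun t => Ph κ A X0 δ L t R) (Ph κ A X0 δ L t R * (A + 2 * κ * δ * l)) t := by
  have h1 : HasDerivAt (fun t => A * t - κ * (X0 - 2 * δ * L t - R)) (A + 2 * κ * δ * l) t := by
    have := ((hasDerivAt_id t).const_mul A).sub
      ((((hL.const_mul (2 * δ)).const_sub X0).sub_const R).const_mul κ)
    refine this.congr_deriv ?_
    ring
  exact h1.exp

lemma Ph_s {κ A X0 δ t s R' : ℝ} {L R : ℝ → ℝ} (hR : HasDerivAt R R' s) :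
    HasDerivAt (fun s => Ph κ A X0 δ L t (R s)) (Ph κ A X0 δ L t (R s) * (κ * R')) s := by
  have h1 : HasDerivAt (fun s => A * t - κ * (X0 - 2 * δ * L t - R s)) (κ * R') s := by
    have := (((hR.const_sub (X0 - 2 * δ * L t)).const_mul κ).const_sub (A * t))
    refine this.congr_deriv ?_
    ring
  exact h1.exp

lemma Ph_ss {κ A X0 δ t s R'' : ℝ} {L R R1 : ℝ → ℝ} (hR : HasDerivAt R (R1 s) s)
    (hR1 : HasDerivAt R1 R'' s) :
    HasDerivAt (fun s => Ph κ A X0 δ L t (R s) * (κ * R1 s))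
      (Ph κ A X0 δ L t (R s) * (κ * R1 s) * (κ * R1 s) + Ph κ A X0 δ L t (R s) * (κ * R'')) s :=
  (Ph_s hR).mul (hR1.const_mul κ)

set_option maxHeartbeats 1000000 in
theorem compare {c : ℝ × ℝ} {κ A X0 δ T : ℝ} {L l : ℝ → ℝ} (hδ : 0 < δ) (hX0 : X0 < δ ^ 2)
    (hκ : 0 ≤ κ) (hA : 4 * κ ^ 2 * δ ^ 2 + 4 * κ ≤ A) (hLc : Continuous L)
    (hLm : MonotoneOn L (Icc 0 T)) (hL0 : L 0 = 0)
    (hLd : ∀ t ∈ Ioo 0 T, HasDerivAt L (l t) t) (hl : ∀ t ∈ Ioo 0 T, 0 ≤ l t)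
    {u v w : E → ℝ} {K a : ℝ}
    (hw : ContinuousOn w (Icc 0 T ×ˢ Disc c δ))
    (hw2 : ContDiffOn ℝ ((2 : ℕ) : ℕ∞) w (Ioo 0 T ×ˢ Disc c δ))
    (heq : ∀ z ∈ Ioo 0 T ×ˢ Disc c δ, pd et w z + u z * pd ex w z + v z * pd ey w z
      = pd ex (pd ex w) z + pd ey (pd ey w) z)
    (huv : ∀ z ∈ Ioo 0 T ×ˢ Disc c δ, u z ^ 2 + v z ^ 2 ≤ l z.1 ^ 2)
    (hK : ∀ z ∈ Ioo 0 T ×ˢ Disc c δ, |w z| ≤ K) (haK : a ≤ K) (hK0 : 0 ≤ K)
    (h0 : ∀ z ∈ Disc c δ, a ≤ w (0, z))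
    {T' : ℝ} (hT' : T' < T) {z : E} (hz : z ∈ Bx c X0 δ L T') :
    a ≤ w z + 2 * K * Ph κ A X0 δ L z.1 (dsq z.2 c) := by
  have hGpos : ∀ t y, 0 < Ph κ A X0 δ L t y := fun t y => Real.exp_pos _
  have hT'0 : 0 ≤ T' := hz.1.1.trans hz.1.2
  have hLn : ∀ t ∈ Icc 0 T, 0 ≤ L t := fun t ht => by
    have := hLm (left_mem_Icc.2 (ht.1.trans ht.2)) ht ht.1
    rwa [hL0] at this
  suffices H : ∀ ε > 0, a ≤ w z + 2 * K * Ph κ A X0 δ L z.1 (dsq z.2 c) + ε * z.1 by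
    refine le_of_forall_pos_le_add ?_
    intro η hη
    have hz1 : 0 ≤ z.1 := hz.1.1
    have := H (η / (z.1 + 1)) (by positivity)
    have h2 : η / (z.1 + 1) * z.1 ≤ η := by
      rw [div_mul_eq_mul_div, div_le_iff₀ (by positivity)]
      nlinarith
    linarith
  intro ε hε
  set f : E → ℝ := fun z => w z + 2 * K * Ph κ A X0 δ L z.1 (dsq z.2 c) + ε * z.1 with hf
  have hRO := isOpen_Disc c δ
  have hOp : IsOpen (Ioo 0 T ×ˢ Disc c δ) := isOpen_Ioo.prod hRO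
  have hsub : ∀ z ∈ Bx c X0 δ L T', z.1 ∈ Icc 0 T ∧ z.2 ∈ Disc c δ := by
    rintro z ⟨h1, h2⟩
    have h3 : z.1 ∈ Icc 0 T := ⟨h1.1, h1.2.trans hT'.le⟩
    refine ⟨h3, ?_⟩
    have := mul_nonneg (mul_nonneg (by norm_num : (0:ℝ) ≤ 2) hδ.le) (hLn _ h3)
    show dsq z.2 c < δ ^ 2
    linarith
  have hsubC : Bx c X0 δ L T' ⊆ Icc 0 T ×ˢ Disc c δ := fun z hz => hsub z hz
  have hfc : ContinuousOn f (Bx c X0 δ L T') := by
    refine ((hw.mono hsubC).add ?_).add ?_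
    · have hds : Continuous (fun z : E => dsq z.2 c) := (dsq_cont c).comp continuous_snd
      unfold Ph
      exact (by fun_prop : Continuous fun z : E =>
        2 * K * Real.exp (A * z.1 - κ * (X0 - 2 * δ * L z.1 - dsq z.2 c))).continuousOn
    · exact (continuous_const.mul continuous_fst).continuousOn
  obtain ⟨z0, hz0, hmin⟩ := (compactBx (c := c) hδ hX0 hLc
    (fun t ht => hLn t ⟨ht.1, ht.2.trans hT'.le⟩)).exists_isMinOn ⟨z, hz⟩ hfc
  have hmin' : ∀ z ∈ Bx c X0 δ L T', f z0 ≤ f z := fun z hz => hmin hz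
  suffices H0 : a ≤ f z0 from H0.trans (hmin' z hz)
  obtain ⟨t0, x0, y0⟩ := z0
  obtain ⟨ht, hR⟩ := hsub _ hz0
  obtain ⟨hb1, hb3⟩ := id hz0
  simp only at hb1 hb3 ht hR
  set R0 := dsq (x0, y0) c with hR0
  rcases eq_or_lt_of_le ht.1 with h00 | ht0
  · subst h00
    have h1 := h0 (x0, y0) hR
    have h2 := mul_nonneg (mul_nonneg (by norm_num : (0:ℝ) ≤ 2) hK0) (hGpos 0 R0).le
    simp only [hf]
    linarith
  have htT : t0 < T := lt_of_le_of_lt hb1.2 hT'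
  have hzC : ((t0, x0, y0) : E) ∈ Ioo 0 T ×ˢ Disc c δ := ⟨⟨ht0, htT⟩, hR⟩
  have hwK := abs_le.1 (hK _ hzC)
  have hA0 : 0 ≤ A := le_trans (add_nonneg (by positivity) (by linarith)) hA
  by_cases hx1 : R0 = X0 - 2 * δ * L t0
  · have h1 : 1 ≤ Ph κ A X0 δ L t0 R0 := by
      unfold Ph
      rw [hx1]
      apply Real.one_le_exp
      have : 0 ≤ A * t0 := by positivity
      linarith [show κ * (X0 - 2 * δ * L t0 - (X0 - 2 * δ * L t0)) = 0 by ring]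
    have h2 : 2 * K * 1 ≤ 2 * K * Ph κ A X0 δ L t0 R0 := mul_le_mul_of_nonneg_left h1 (by positivity)
    have h3 : 0 ≤ ε * t0 := by positivity
    simp only [hf]
    linarith [hwK.1]
  exfalso
  have hxlt : R0 < X0 - 2 * δ * L t0 := lt_of_le_of_ne hb3 hx1
  have dw : ∀ z ∈ Ioo 0 T ×ˢ Disc c δ, DifferentiableAt ℝ w z := fun z hz =>
    diffAt hOp (by norm_num) hw2 hz
  have dw1 : ∀ e, ∀ z ∈ Ioo 0 T ×ˢ Disc c δ, DifferentiableAt ℝ (pd e w) z := fun e z hz =>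
    diffAt hOp (n := 1) (by norm_num) (pd_contDiffOn hOp hw2 e) hz
  have hLt := hLd t0 ⟨ht0, htT⟩
  have ft : HasDerivAt (fun s => f (s, x0, y0)) _ t0 :=
    ((slice_t (dw _ hzC)).add ((Ph_t (κ := κ) (A := A) (X0 := X0) (δ := δ) (R := R0) hLt).const_mul (2 * K))).add
      ((hasDerivAt_id t0).const_mul ε)
  have hleft : ∀ᶠ t in 𝓝[<] t0, f (t0, x0, y0) ≤ f (t, x0, y0) := by
    have : Ioo 0 t0 ∈ 𝓝[<] t0 := Ioo_mem_nhdsLT ht0
    filter_upwards [this] with t htt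
    apply hmin'
    have hmo : L t ≤ L t0 := hLm ⟨htt.1.le, (htt.2.trans htT).le⟩ ⟨ht0.le, htT.le⟩ htt.2.le
    refine ⟨⟨htt.1.le, htt.2.le.trans hb1.2⟩, ?_⟩
    refine hb3.trans ?_
    have := mul_le_mul_of_nonneg_left hmo (mul_nonneg (by norm_num : (0:ℝ) ≤ 2) hδ.le)
    simp only
    linarith
  have c1 := left_nonpos ft hleft
  have evR : ∀ᶠ z in 𝓝 ((x0, y0) : ℝ × ℝ), z ∈ Disc c δ := hRO.mem_nhds hR
  have evB : ∀ᶠ z in 𝓝 ((x0, y0) : ℝ × ℝ), ((t0, z) : E) ∈ Bx c X0 δ L T' := by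
    have e1 : ∀ᶠ z in 𝓝 ((x0, y0) : ℝ × ℝ), dsq z c < X0 - 2 * δ * L t0 :=
      ((dsq_cont c).tendsto (x0, y0)).eventually_lt_const hxlt
    filter_upwards [e1] with z h1
    exact ⟨hb1, h1.le⟩
  have tx : Tendsto (fun x : ℝ => ((x, y0) : ℝ × ℝ)) (𝓝 x0) (𝓝 (x0, y0)) :=
    (Continuous.prodMk continuous_id continuous_const).tendsto x0
  have ty : Tendsto (fun y : ℝ => ((x0, y) : ℝ × ℝ)) (𝓝 y0) (𝓝 (x0, y0)) :=
    (Continuous.prodMk continuous_const continuous_id).tendsto y0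
  have mx : IsLocalMin (fun x => f (t0, x, y0)) x0 := by
    filter_upwards [tx.eventually evB] with x hxx
    exact hmin' _ hxx
  have my : IsLocalMin (fun y => f (t0, x0, y)) y0 := by
    filter_upwards [ty.eventually evB] with y hyy
    exact hmin' _ hyy
  have hRx : ∀ x y : ℝ, HasDerivAt (fun x => dsq (x, y) c) (2 * (x - c.1)) x := by
    intro x y
    have := (((hasDerivAt_id x).sub_const c.1).pow 2).add_const ((y - c.2) ^ 2)
    refine (this.congr_deriv ?_)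
    simp
  have hRy : ∀ x y : ℝ, HasDerivAt (fun y => dsq (x, y) c) (2 * (y - c.2)) y := by
    intro x y
    have := (((hasDerivAt_id y).sub_const c.2).pow 2).const_add ((x - c.1) ^ 2)
    refine (this.congr_deriv ?_)
    simp
  have hRxx : ∀ x : ℝ, HasDerivAt (fun x => 2 * (x - c.1)) 2 x := by
    intro x
    have := ((hasDerivAt_id x).sub_const c.1).const_mul 2
    refine (this.congr_deriv ?_)
    simp
  have hRyy : ∀ y : ℝ, HasDerivAt (fun y => 2 * (y - c.2)) 2 y := by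
    intro y
    have := ((hasDerivAt_id y).sub_const c.2).const_mul 2
    refine (this.congr_deriv ?_)
    simp
  have fx : ∀ᶠ x in 𝓝 x0, HasDerivAt (fun x => f (t0, x, y0))
      ((fun x => pd ex w (t0, x, y0) + 2 * K * (Ph κ A X0 δ L t0 (dsq (x, y0) c)
        * (κ * (2 * (x - c.1))))) x) x := by
    filter_upwards [tx.eventually evR] with x hxx
    have hxC : ((t0, x, y0) : E) ∈ Ioo 0 T ×ˢ Disc c δ := ⟨⟨ht0, htT⟩, hxx⟩
    exact (((slice_x (dw _ hxC)).add ((Ph_s (κ := κ) (A := A) (X0 := X0) (δ := δ) (L := L) (t := t0)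
      (hRx x y0)).const_mul (2 * K))).add_const (ε * t0))
  have fxx := (slice_x (dw1 ex _ hzC)).add
    ((Ph_ss (κ := κ) (A := A) (X0 := X0) (δ := δ) (L := L) (t := t0) (s := x0)
      (R := fun x => dsq (x, y0) c) (R1 := fun x => 2 * (x - c.1))
      (hRx x0 y0) (hRxx x0)).const_mul (2 * K))
  obtain ⟨cx1, cx2⟩ := snd_nonneg fx fxx mx
  have fy : ∀ᶠ y in 𝓝 y0, HasDerivAt (fun y => f (t0, x0, y))
      ((fun y => pd ey w (t0, x0, y) + 2 * K * (Ph κ A X0 δ L t0 (dsq (x0, y) c)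
        * (κ * (2 * (y - c.2))))) y) y := by
    filter_upwards [ty.eventually evR] with y hyy
    have hyC : ((t0, x0, y) : E) ∈ Ioo 0 T ×ˢ Disc c δ := ⟨⟨ht0, htT⟩, hyy⟩
    exact (((slice_y (dw _ hyC)).add ((Ph_s (κ := κ) (A := A) (X0 := X0) (δ := δ) (L := L) (t := t0)
      (hRy x0 y)).const_mul (2 * K))).add_const (ε * t0))
  have fyy := (slice_y (dw1 ey _ hzC)).add
    ((Ph_ss (κ := κ) (A := A) (X0 := X0) (δ := δ) (L := L) (t := t0) (s := y0)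
      (R := fun y => dsq (x0, y) c) (R1 := fun y => 2 * (y - c.2))
      (hRy x0 y0) (hRyy y0)).const_mul (2 * K))
  obtain ⟨cy1, cy2⟩ := snd_nonneg fy fyy my
  have hRsq : (x0 - c.1) ^ 2 + (y0 - c.2) ^ 2 ≤ δ ^ 2 := by
    have h1 : dsq (x0, y0) c < δ ^ 2 := hR
    unfold dsq at h1
    exact h1.le
  have hE := heq _ hzC
  have hlt := hl t0 ⟨ht0, htT⟩
  have huv0 := huv _ hzC
  simp only at huv0
  set U := u (t0, x0, y0) with hU
  set V := v (t0, x0, y0) with hV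
  have hCS : -(δ * l t0) ≤ U * (x0 - c.1) + V * (y0 - c.2) := by
    have h1 : (U * (x0 - c.1) + V * (y0 - c.2)) ^ 2 ≤ (δ * l t0) ^ 2 := by
      have h2 : (U * (x0 - c.1) + V * (y0 - c.2)) ^ 2
          ≤ (U ^ 2 + V ^ 2) * ((x0 - c.1) ^ 2 + (y0 - c.2) ^ 2) := by
        nlinarith [sq_nonneg (U * (y0 - c.2) - V * (x0 - c.1))]
      have h3 : (U ^ 2 + V ^ 2) * ((x0 - c.1) ^ 2 + (y0 - c.2) ^ 2) ≤ l t0 ^ 2 * δ ^ 2 :=
        mul_le_mul huv0 hRsq (by positivity) (by positivity)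
      nlinarith
    have h4 := abs_le_of_sq_le_sq h1 (by positivity)
    exact (abs_le.1 h4).1
  have hsup : 0 ≤ Ph κ A X0 δ L t0 R0 * (A + 2 * κ * δ * l t0
      + U * (κ * (2 * (x0 - c.1))) + V * (κ * (2 * (y0 - c.2)))
      - κ * (2 * (x0 - c.1)) * (κ * (2 * (x0 - c.1))) - κ * 2
      - κ * (2 * (y0 - c.2)) * (κ * (2 * (y0 - c.2))) - κ * 2) := by
    apply mul_nonneg (hGpos _ _).le
    have h1 : 0 ≤ 2 * κ * (U * (x0 - c.1) + V * (y0 - c.2) + δ * l t0) :=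
      mul_nonneg (by positivity) (by linarith)
    have h2 : 0 ≤ 4 * κ ^ 2 * (δ ^ 2 - ((x0 - c.1) ^ 2 + (y0 - c.2) ^ 2)) :=
      mul_nonneg (by positivity) (by linarith)
    have h3 : 0 ≤ A - (4 * κ ^ 2 * δ ^ 2 + 4 * κ) := by linarith
    have e : A + 2 * κ * δ * l t0
      + U * (κ * (2 * (x0 - c.1))) + V * (κ * (2 * (y0 - c.2)))
      - κ * (2 * (x0 - c.1)) * (κ * (2 * (x0 - c.1))) - κ * 2
      - κ * (2 * (y0 - c.2)) * (κ * (2 * (y0 - c.2))) - κ * 2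
      = (A - (4 * κ ^ 2 * δ ^ 2 + 4 * κ)) + 2 * κ * (U * (x0 - c.1) + V * (y0 - c.2) + δ * l t0)
        + 4 * κ ^ 2 * (δ ^ 2 - ((x0 - c.1) ^ 2 + (y0 - c.2) ^ 2)) := by ring
    rw [e]
    exact add_nonneg (add_nonneg h3 h1) h2
  rw [← hR0] at cx1 cy1 cx2 cy2
  try simp only [← hR0] at c1 hsup
  set P := Ph κ A X0 δ L t0 R0 with hP
  clear_value P
  generalize pd et w (t0, x0, y0) = wt at hE c1
  generalize hX : x0 - c.1 = X at *
  generalize hY : y0 - c.2 = Y at *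
  generalize pd ex w (t0, x0, y0) = wx at hE cx1
  generalize pd ey w (t0, x0, y0) = wy at hE cy1
  generalize pd ex (pd ex w) (t0, x0, y0) = wxx at hE cx2
  generalize pd ey (pd ey w) (t0, x0, y0) = wyy at hE cy2
  generalize l t0 = lt at *
  have key : (0:ℝ) ≤ 2 * K * (P * (A + 2 * κ * δ * lt
      + U * (κ * (2 * X)) + V * (κ * (2 * Y))
      - κ * (2 * X) * (κ * (2 * X)) - κ * 2
      - κ * (2 * Y) * (κ * (2 * Y)) - κ * 2)) :=
    mul_nonneg (mul_nonneg (by norm_num) hK0) hsup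
  have e1 : U * wx = -(U * (2 * K * (P * (κ * (2 * X))))) := by
    have : wx = -(2 * K * (P * (κ * (2 * X)))) := by linarith
    rw [this]; ring
  have e2 : V * wy = -(V * (2 * K * (P * (κ * (2 * Y))))) := by
    have : wy = -(2 * K * (P * (κ * (2 * Y)))) := by linarith
    rw [this]; ring
  rw [e1, e2] at hE
  have e3 : 2 * K * (P * (A + 2 * κ * δ * lt
      + U * (κ * (2 * X)) + V * (κ * (2 * Y))
      - κ * (2 * X) * (κ * (2 * X)) - κ * 2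
      - κ * (2 * Y) * (κ * (2 * Y)) - κ * 2))
      = 2 * K * (P * (A + 2 * κ * δ * lt)) + U * (2 * K * (P * (κ * (2 * X))))
        + V * (2 * K * (P * (κ * (2 * Y))))
        - 2 * K * (P * (κ * (2 * X)) * (κ * (2 * X)) + P * (κ * 2))
        - 2 * K * (P * (κ * (2 * Y)) * (κ * (2 * Y)) + P * (κ * 2)) := by ring
  rw [e3] at key
  linarith

end Pool.Agent.Q176.FI
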