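import Pool.Agent.Q176.FI.A

/-! Evaluation of the barrier at the centre and the main theorem. -/

namespace Pool.Agent.Q176.FI

open Set Filter Topology Pool.Agent.Q176.WL

lemma eval {δ T : ℝ} {L : ℝ → ℝ} (hT : 0 < T) (hδ : 0 < δ) (hL : L T ≤ δ / 4) :
    2 * Ph (1 / (32 * T)) (4 * (1 / (32 * T)) ^ 2 * δ ^ 2 + 4 * (1 / (32 * T))) (15 / 16 * δ ^ 2) δ L T 0
      ≤ 3 * Real.exp (-(δ ^ 2 / (128 * T))) := by
  have h1 : Ph (1 / (32 * T)) (4 * (1 / (32 * T)) ^ 2 * δ ^ 2 + 4 * (1 / (32 * T)))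
      (15 / 16 * δ ^ 2) δ L T 0 ≤ Real.exp (1 / 8 + -(δ ^ 2 / (128 * T))) := by
    unfold Ph
    apply Real.exp_le_exp.2
    have e1 : (4 * (1 / (32 * T)) ^ 2 * δ ^ 2 + 4 * (1 / (32 * T))) * T
        = δ ^ 2 / (256 * T) + 1 / 8 := by
      field_simp; ring
    have e2 : 1 / (32 * T) * (7 / 16 * δ ^ 2)
        ≤ 1 / (32 * T) * (15 / 16 * δ ^ 2 - 2 * δ * L T - 0) := by
      apply mul_le_mul_of_nonneg_left _ (by positivity)
      nlinarith
    have e3 : δ ^ 2 / (256 * T) + 1 / 8 - 1 / (32 * T) * (7 / 16 * δ ^ 2)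
        = 1 / 8 + -(δ ^ 2 / (128 * T)) - δ ^ 2 / (512 * T) := by
      field_simp; ring
    have e4 : 0 ≤ δ ^ 2 / (512 * T) := by positivity
    rw [e1]
    linarith
  have h2 : Real.exp (1 / 8) ≤ 3 / 2 := by
    have h3 : 1 - 1 / 8 ≤ Real.exp (-(1 / 8)) := by
      have := Real.add_one_le_exp (-(1 / 8 : ℝ))
      linarith
    have h4 : Real.exp (1 / 8) * Real.exp (-(1 / 8)) = 1 := by
      rw [← Real.exp_add]; simp
    have h5 : Real.exp (1 / 8) * (1 - 1 / 8) ≤ Real.exp (1 / 8) * Real.exp (-(1 / 8)) :=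
      mul_le_mul_of_nonneg_left h3 (Real.exp_pos _).le
    rw [h4] at h5
    linarith
  rw [Real.exp_add] at h1
  have h3 : Real.exp (1 / 8) * Real.exp (-(δ ^ 2 / (128 * T)))
      ≤ 3 / 2 * Real.exp (-(δ ^ 2 / (128 * T))) :=
    mul_le_mul_of_nonneg_right h2 (Real.exp_pos _).le
  linarith

theorem main {c : ℝ × ℝ} {δ : ℝ} (hδ : 0 < δ)
    {T : ℝ} (hT : 0 < T) {u v p w : E → ℝ} (hns : IsNS (Ioo 0 T ×ˢ Disc c δ) u v p)
    (hw : ∀ z ∈ Ioo 0 T ×ˢ Disc c δ, w z = pd ex v z - pd ey u z)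
    (hwc : ContinuousOn w (Icc 0 T ×ˢ Disc c δ))
    {L l : ℝ → ℝ} (hLc : ContinuousOn L (Icc 0 T)) (hL0 : L 0 = 0)
    (hLd : ∀ t ∈ Ioo 0 T, HasDerivAt L (l t) t) (hl : ∀ t ∈ Ioo 0 T, 0 ≤ l t)
    (huv : ∀ z ∈ Ioo 0 T ×ˢ Disc c δ, u z ^ 2 + v z ^ 2 ≤ l z.1 ^ 2)
    {K a : ℝ} (ha : 0 < a) (haK : a ≤ K) (hK : ∀ z ∈ Ioo 0 T ×ˢ Disc c δ, |w z| ≤ K)
    (h0 : ∀ z ∈ Disc c δ, a ≤ w (0, z)) (hLT : L T ≤ δ / 4) :
    a - 3 * K * Real.exp (-(δ ^ 2 / (128 * T))) ≤ w (T, c) ∧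
    ∀ b < a, w (T, c) ≤ b → δ ^ 2 ≤ 128 * T * Real.log (3 * K / (a - b)) := by
  have hK0 : 0 < K := ha.trans_le haK
  have hOp : IsOpen (Ioo 0 T ×ˢ Disc c δ) := isOpen_Ioo.prod (isOpen_Disc c δ)
  obtain ⟨hw2, heq⟩ := vorticity_eq hOp hns hw
  have hmono : MonotoneOn L (Icc 0 T) := by
    apply monotoneOn_of_deriv_nonneg (convex_Icc 0 T) hLc
    · intro t ht
      rw [interior_Icc] at ht
      exact (hLd t ht).differentiableAt.differentiableWithinAt
    · intro t ht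
      rw [interior_Icc] at ht
      rw [(hLd t ht).deriv]
      exact hl t ht
  have hcc : dsq c c = 0 := by simp [dsq]
  have hz : c ∈ Disc c δ := by
    show dsq c c < δ ^ 2
    rw [hcc]; positivity
  have mem_T : ((T, c) : E) ∈ Icc 0 T ×ˢ Disc c δ := ⟨right_mem_Icc.2 hT.le, hz⟩
  have hlim : Tendsto (fun t : ℝ => w (t, c)) (𝓝[Ioo 0 T] T) (𝓝 (w (T, c))) := by
    have h1 : ContinuousWithinAt w (Icc 0 T ×ˢ Disc c δ) (T, c) := hwc _ mem_T
    have h2 : Tendsto (fun t : ℝ => ((t, c) : E)) (𝓝[Ioo 0 T] T)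
        (𝓝[Icc 0 T ×ˢ Disc c δ] (T, c)) := by
      apply tendsto_nhdsWithin_of_tendsto_nhds_of_eventually_within
      · exact ((Continuous.prodMk continuous_id continuous_const).tendsto T).mono_left
          nhdsWithin_le_nhds
      · filter_upwards [self_mem_nhdsWithin] with t ht using ⟨⟨ht.1.le, ht.2.le⟩, hz⟩
    exact h1.tendsto.comp h2
  have : (𝓝[Ioo 0 T] T).NeBot := by
    rw [← mem_closure_iff_nhdsWithin_neBot, closure_Ioo hT.ne]
    exact right_mem_Icc.2 hT.le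
  set S := δ ^ 2 / (128 * T) with hS
  have S0 : 0 < S := by positivity
  have part1 : a - 3 * K * Real.exp (-S) ≤ w (T, c) := by
    set L' : ℝ → ℝ := fun t => L (max 0 (min t T)) with hL'
    have hL'c : Continuous L' := by
      apply hLc.comp_continuous (by fun_prop)
      intro t
      exact ⟨le_max_left _ _, max_le hT.le (min_le_right _ _)⟩
    have hL'eq : ∀ t ∈ Icc 0 T, L' t = L t := by
      intro t ht
      simp only [hL']
      rw [min_eq_left ht.2, max_eq_right ht.1]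
    have hL'T : L' T = L T := hL'eq T (right_mem_Icc.2 hT.le)
    have hL'm : MonotoneOn L' (Icc 0 T) := by
      intro s hs t ht hst
      rw [hL'eq s hs, hL'eq t ht]
      exact hmono hs ht hst
    have hL'0 : L' 0 = 0 := by rw [hL'eq 0 (left_mem_Icc.2 hT.le), hL0]
    have hL'd : ∀ t ∈ Ioo 0 T, HasDerivAt L' (l t) t := by
      intro t ht
      refine (hLd t ht).congr_of_eventuallyEq ?_
      filter_upwards [Ioo_mem_nhds ht.1 ht.2] with s hs
      exact hL'eq s ⟨hs.1.le, hs.2.le⟩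
    have hbox : ∀ t ∈ Ioo 0 T, ((t, c) : E) ∈ Bx c (15 / 16 * δ ^ 2) δ L' t := by
      intro t ht
      have hLt : L' t ≤ δ / 4 := by
        rw [hL'eq t ⟨ht.1.le, ht.2.le⟩]
        exact (hmono ⟨ht.1.le, ht.2.le⟩ (right_mem_Icc.2 hT.le) ht.2.le).trans hLT
      refine ⟨⟨ht.1.le, le_refl _⟩, ?_⟩
      simp only
      rw [hcc]
      nlinarith
    have hcmp : ∀ t ∈ Ioo 0 T, a ≤ w (t, c) + 2 * K * Ph (1 / (32 * T))
        (4 * (1 / (32 * T)) ^ 2 * δ ^ 2 + 4 * (1 / (32 * T))) (15 / 16 * δ ^ 2) δ L' t (dsq c c) :=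
      fun t ht => compare (c := c) (L := L') hδ (by nlinarith [sq_pos_of_pos hδ]) (by positivity) le_rfl hL'c
        hL'm hL'0 hL'd hl hwc hw2 heq huv hK haK hK0.le h0 ht.2 (hbox t ht)
    have hGc : Continuous (fun t : ℝ => Ph (1 / (32 * T))
        (4 * (1 / (32 * T)) ^ 2 * δ ^ 2 + 4 * (1 / (32 * T))) (15 / 16 * δ ^ 2) δ L' t (dsq c c)) := by
      unfold Ph
      fun_prop
    have hlimG := hlim.add (((hGc.tendsto T).mono_left
      (nhdsWithin_le_nhds (s := Ioo 0 T))).const_mul (2 * K))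
    have hfin : a ≤ w (T, c) + 2 * K * Ph (1 / (32 * T))
        (4 * (1 / (32 * T)) ^ 2 * δ ^ 2 + 4 * (1 / (32 * T))) (15 / 16 * δ ^ 2) δ L' T (dsq c c) := by
      refine ge_of_tendsto hlimG ?_
      filter_upwards [self_mem_nhdsWithin] with t ht using hcmp t ht
    have hev := eval (L := L') hT hδ (by rw [hL'T]; exact hLT)
    rw [← hS] at hev
    rw [hcc] at hfin
    have := mul_le_mul_of_nonneg_left hev hK0.le
    linarith
  refine ⟨part1, ?_⟩
  intro b hba hwb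
  have hab : 0 < a - b := by linarith
  have h1 : a - b ≤ 3 * K * Real.exp (-S) := by linarith
  have h2 : Real.exp S ≤ 3 * K / (a - b) := by
    rw [le_div_iff₀ hab]
    calc Real.exp S * (a - b) ≤ Real.exp S * (3 * K * Real.exp (-S)) :=
          mul_le_mul_of_nonneg_left h1 (Real.exp_pos _).le
      _ = 3 * K * (Real.exp S * Real.exp (-S)) := by ring
      _ = 3 * K := by rw [← Real.exp_add]; simp
  have h3 : S ≤ Real.log (3 * K / (a - b)) := by
    rw [Real.le_log_iff_exp_le (lt_of_lt_of_le (Real.exp_pos _) h2)]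
    exact h2
  rw [hS, div_le_iff₀ (by positivity)] at h3
  linarith

end Pool.Agent.Q176.FI
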